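import Mathlib
import Pool.Agent.Helper38.SG.CalcA

/-! # Sobolev gap, piece CALC-E: commuting exponentials -/

open Filter Topology Set
open scoped RealInnerProductSpace ContDiff
open Pool.Agent.Helper38.SG

universe u

namespace Pool.Agent.Helper67.SG

variable {G 𝔤 : Type u} [Group G] [TopologicalSpace G] [IsTopologicalGroup G] [T2Space G]
  [NormedAddCommGroup 𝔤] [InnerProductSpace ℝ 𝔤] [FiniteDimensional ℝ 𝔤]

omit [IsTopologicalGroup G] [T2Space G] [FiniteDimensional ℝ 𝔤] in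
/-- The derivative at the origin of the group law in the chart. -/
theorem mul_deriv (L : LieData G 𝔤) : ∃ m : 𝔤 × 𝔤 → 𝔤, m (0, 0) = 0 ∧
    HasFDerivAt m (ContinuousLinearMap.fst ℝ 𝔤 𝔤 + ContinuousLinearMap.snd ℝ 𝔤 𝔤) (0, 0) ∧
    ∀ᶠ p in 𝓝 ((0, 0) : 𝔤 × 𝔤), L.exp p.1 * L.exp p.2 = L.exp (m p) := by
  obtain ⟨m, hm, hm0, hmul⟩ := L.mul_smooth
  obtain ⟨e, he0, he⟩ := L.exp_chart
  have hd : DifferentiableAt ℝ m (0, 0) := hm.differentiableAt (by simp)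
  have hD := hd.hasFDerivAt
  have hcont : ContinuousAt m (0, 0) := hd.continuousAt
  have hsrc : ∀ᶠ X in 𝓝 (0 : 𝔤), X ∈ e.source := e.open_source.mem_nhds he0
  have hsrc' : ∀ᶠ p in 𝓝 ((0, 0) : 𝔤 × 𝔤), m p ∈ e.source := by
    have : Tendsto m (𝓝 (0, 0)) (𝓝 0) := by
      have := hcont.tendsto
      rwa [hm0] at this
    exact this.eventually hsrc
  have hinl : Tendsto (fun X : 𝔤 => (X, (0 : 𝔤))) (𝓝 0) (𝓝 ((0, 0) : 𝔤 × 𝔤)) := by
    have : Continuous fun X : 𝔤 => (X, (0 : 𝔤)) := by fun_prop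
    exact this.tendsto 0
  have hinr : Tendsto (fun X : 𝔤 => ((0 : 𝔤), X)) (𝓝 0) (𝓝 ((0, 0) : 𝔤 × 𝔤)) := by
    have : Continuous fun X : 𝔤 => ((0 : 𝔤), X) := by fun_prop
    exact this.tendsto 0
  have h1 : (fun X : 𝔤 => m (X, 0)) =ᶠ[𝓝 0] fun X => X := by
    filter_upwards [hsrc, hinl.eventually hsrc', hinl.eventually hmul] with X a b c
    have c' : L.exp X = L.exp (m (X, 0)) := by
      rw [← c, L.exp_zero, mul_one]
    rw [← he X a, ← he _ b] at c'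
    exact (e.injOn a b c').symm
  have h2 : (fun X : 𝔤 => m (0, X)) =ᶠ[𝓝 0] fun X => X := by
    filter_upwards [hsrc, hinr.eventually hsrc', hinr.eventually hmul] with X a b c
    have c' : L.exp X = L.exp (m (0, X)) := by
      rw [← c, L.exp_zero, one_mul]
    rw [← he X a, ← he _ b] at c'
    exact (e.injOn a b c').symm
  have k1 : (fderiv ℝ m (0, 0)).comp (ContinuousLinearMap.inl ℝ 𝔤 𝔤) =
      ContinuousLinearMap.id ℝ 𝔤 := by
    have a : HasFDerivAt (fun X : 𝔤 => m (X, 0))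
        ((fderiv ℝ m (0, 0)).comp (ContinuousLinearMap.inl ℝ 𝔤 𝔤)) 0 :=
      HasFDerivAt.comp (g := m) (f := fun X : 𝔤 => (X, (0 : 𝔤))) 0 hD
        (ContinuousLinearMap.inl ℝ 𝔤 𝔤).hasFDerivAt
    have b := a.congr_of_eventuallyEq h1.symm
    exact b.unique (hasFDerivAt_id 0)
  have k2 : (fderiv ℝ m (0, 0)).comp (ContinuousLinearMap.inr ℝ 𝔤 𝔤) =
      ContinuousLinearMap.id ℝ 𝔤 := by
    have a : HasFDerivAt (fun X : 𝔤 => m (0, X))
        ((fderiv ℝ m (0, 0)).comp (ContinuousLinearMap.inr ℝ 𝔤 𝔤)) 0 :=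
      HasFDerivAt.comp (g := m) (f := fun X : 𝔤 => ((0 : 𝔤), X)) 0 hD
        (ContinuousLinearMap.inr ℝ 𝔤 𝔤).hasFDerivAt
    have b := a.congr_of_eventuallyEq h2.symm
    exact b.unique (hasFDerivAt_id 0)
  have k : fderiv ℝ m (0, 0) =
      ContinuousLinearMap.fst ℝ 𝔤 𝔤 + ContinuousLinearMap.snd ℝ 𝔤 𝔤 := by
    ext p
    · have := congrArg (fun T : 𝔤 →L[ℝ] 𝔤 => T p) k1
      simpa using this
    · have := congrArg (fun T : 𝔤 →L[ℝ] 𝔤 => T p) k2
      simpa using this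
  rw [k] at hD
  exact ⟨m, hm0, hD, hmul⟩

omit [IsTopologicalGroup G] [T2Space G] [FiniteDimensional ℝ 𝔤] in
theorem tendsto_trotter (L : LieData G 𝔤) (X Y : 𝔤) :
    Tendsto (fun n : ℕ => (L.exp ((n : ℝ)⁻¹ • X) * L.exp ((n : ℝ)⁻¹ • Y)) ^ n) atTop
      (𝓝 (L.exp (X + Y))) := by
  obtain ⟨m, hm0, hD, hmul⟩ := mul_deriv L
  have hc : Tendsto (fun n : ℕ => ‖(n : ℝ)‖) atTop atTop := by
    simpa using (tendsto_natCast_atTop_atTop (R := ℝ))
  have hlim := hD.lim (X, Y) hc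
  have hlim' : Tendsto (fun n : ℕ => (n : ℝ) • m ((n : ℝ)⁻¹ • X, (n : ℝ)⁻¹ • Y)) atTop
      (𝓝 (X + Y)) := by
    simpa [hm0] using hlim
  have hexp : Tendsto (fun n : ℕ => L.exp ((n : ℝ) • m ((n : ℝ)⁻¹ • X, (n : ℝ)⁻¹ • Y))) atTop
      (𝓝 (L.exp (X + Y))) := (L.continuous_exp.tendsto _).comp hlim'
  have hsmall : Tendsto (fun n : ℕ => ((n : ℝ)⁻¹ • X, (n : ℝ)⁻¹ • Y)) atTop
      (𝓝 ((0, 0) : 𝔤 × 𝔤)) := by
    have h0 : Tendsto (fun n : ℕ => (n : ℝ)⁻¹) atTop (𝓝 0) := tendsto_inv_atTop_nhds_zero_nat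
    have a := h0.smul_const X
    have b := h0.smul_const Y
    rw [zero_smul] at a b
    exact a.prodMk_nhds b
  refine hexp.congr' ?_
  filter_upwards [hsmall.eventually hmul] with n hn
  rw [L.exp_nsmul, hn]

omit [IsTopologicalGroup G] [T2Space G] in
theorem Ad_hasSum (L : LieData G 𝔤) [IsTopologicalGroup G] (X Y : 𝔤) :
    HasSum (fun n : ℕ => ((n.factorial : ℝ)⁻¹) • ((LinearMap.toContinuousLinearMap (L.br X)) ^ n) Y)
      (L.Ad (L.exp X) Y) := by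
  rw [L.Ad_exp]
  have h := NormedSpace.exp_series_hasSum_exp' (𝕂 := ℝ)
    (LinearMap.toContinuousLinearMap (L.br X))
  exact h.mapL (ContinuousLinearMap.apply ℝ 𝔤 Y)

omit [T2Space G] in
theorem Ad_exp_mem (L : LieData G 𝔤) (W : Submodule ℝ 𝔤) {X : 𝔤}
    (h : ∀ Y ∈ W, L.br X Y ∈ W) {Y : 𝔤} (hY : Y ∈ W) :
    L.Ad (L.exp X) Y ∈ W := by
  have hs := Ad_hasSum L X Y
  have hcl : IsClosed (W : Set 𝔤) := Submodule.closed_of_finiteDimensional W
  have hpow : ∀ n : ℕ, ((LinearMap.toContinuousLinearMap (L.br X)) ^ n) Y ∈ W := by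
    intro n
    induction n with
    | zero => simpa using hY
    | succ n ih =>
      rw [pow_succ']
      exact h _ ih
  refine hcl.mem_of_tendsto hs (Eventually.of_forall fun s => ?_)
  exact W.sum_mem fun n _ => W.smul_mem _ (hpow n)

omit [T2Space G] in
theorem Ad_exp_eq_self (L : LieData G 𝔤) {X Y : 𝔤} (h : L.br X Y = 0) :
    L.Ad (L.exp X) Y = Y := by
  have hs := Ad_hasSum L X Y
  have h2 : HasSum (fun n : ℕ => ((n.factorial : ℝ)⁻¹) •
      ((LinearMap.toContinuousLinearMap (L.br X)) ^ n) Y)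
      (((Nat.factorial 0 : ℝ)⁻¹) • ((LinearMap.toContinuousLinearMap (L.br X)) ^ 0) Y) := by
    refine hasSum_single 0 fun n hn => ?_
    obtain ⟨k, rfl⟩ := Nat.exists_eq_succ_of_ne_zero hn
    rw [Nat.succ_eq_add_one, pow_succ]
    change _ • ((LinearMap.toContinuousLinearMap (L.br X)) ^ k) (L.br X Y) = 0
    rw [h, map_zero, smul_zero]
  have := hs.unique h2
  simpa using this

theorem exp_add_of_comm (L : LieData G 𝔤) {X Y : 𝔤} (h : L.br X Y = 0) :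
    L.exp (X + Y) = L.exp X * L.exp Y := by
  have ht := tendsto_trotter L X Y
  refine tendsto_nhds_unique ht (tendsto_const_nhds.congr' ?_)
  filter_upwards [eventually_gt_atTop 0] with n hn
  have hn' : (n : ℝ) ≠ 0 := by positivity
  have hcomm : Commute (L.exp ((n : ℝ)⁻¹ • X)) (L.exp ((n : ℝ)⁻¹ • Y)) := by
    have h1 : L.br ((n : ℝ)⁻¹ • X) ((n : ℝ)⁻¹ • Y) = 0 := by
      rw [map_smul, map_smul, LinearMap.smul_apply, h, smul_zero, smul_zero]
    have h2 := Ad_exp_eq_self L h1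
    have h3 := L.exp_Ad (L.exp ((n : ℝ)⁻¹ • X)) ((n : ℝ)⁻¹ • Y)
    rw [h2] at h3
    exact (eq_mul_inv_iff_mul_eq.1 h3).symm
  rw [hcomm.mul_pow, ← L.exp_nsmul, ← L.exp_nsmul, smul_smul, smul_smul, mul_inv_cancel₀ hn',
    one_smul, one_smul]

end Pool.Agent.Helper67.SG
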