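import Mathlib
import Pool.Agent.Helper38.SG.Near
import Pool.Agent.Helper38.SG.KAlg
import Pool.Agent.Helper38.SG.LinA2
import Pool.Agent.Helper38.SG.PairDefs
import Pool.Agent.Helper77.SG.Conc

/-! # Sobolev gap, piece BASE-1: asymptotics of matrix coefficients -/

open Filter Topology Set MeasureTheory
open scoped RealInnerProductSpace ContDiff
open Pool.Agent.Helper38.SG

universe u

namespace Pool.Agent.Helper67.SG

variable {G 𝔤 : Type u} [Group G] [TopologicalSpace G] [IsTopologicalGroup G] [T2Space G]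
  [NormedAddCommGroup 𝔤] [InnerProductSpace ℝ 𝔤] [FiniteDimensional ℝ 𝔤] {P : ParData G 𝔤}
  {U : Type u} [NormedAddCommGroup U] [InnerProductSpace ℂ U] {R : RepData P U}

omit [IsTopologicalGroup G] [T2Space G] in
/-- If the compact group is finite there are no roots. -/
theorem n_eq_bot (P : ParData G 𝔤) (h : Module.finrank ℝ P.𝔨 = 0) : P.𝔫 = ⊥ := by
  have hk : P.𝔨 = ⊥ := Submodule.finrank_eq_zero.1 h
  have hθ : ∀ X, P.θ X = -X := by
    intro X
    have : X + P.θ X ∈ P.𝔨 := by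
      rw [P.mem_𝔨, map_add, P.θ_θ, add_comm]
    rw [hk, Submodule.mem_bot] at this
    exact (neg_eq_of_add_eq_zero_right this).symm
  have hbr : ∀ X Y, P.br X Y = 0 := by
    intro X Y
    have : P.br X Y ∈ P.𝔨 := by
      rw [P.mem_𝔨, P.θ_br, hθ, hθ, map_neg, map_neg, LinearMap.neg_apply, neg_neg]
    rwa [hk, Submodule.mem_bot] at this
  rw [ParData.𝔫, iSup_eq_bot]
  rintro ⟨μ, hμ⟩
  rw [Submodule.eq_bot_iff]
  intro X hX
  rw [Module.End.mem_eigenspace_iff, hbr] at hX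
  exact (smul_eq_zero.1 hX.symm).resolve_left (ne_of_gt hμ)

omit [TopologicalSpace G] [IsTopologicalGroup G] [T2Space G] in
theorem chi_small (ν ρ : 𝔤 →ₗ[ℝ] ℝ) {δ : ℝ} (hδ : 0 < δ) :
    ∃ r : ℝ, 0 < r ∧ ∀ H : 𝔤, ‖H‖ < r →
      ‖Complex.exp (-(Complex.I * (ν H : ℝ) + (ρ H : ℝ))) - 1‖ ≤ δ := by
  have hν : Continuous ν := LinearMap.continuous_of_finiteDimensional ν
  have hρ : Continuous ρ := LinearMap.continuous_of_finiteDimensional ρ
  have hc : Continuous fun H : 𝔤 => Complex.exp (-(Complex.I * (ν H : ℝ) + (ρ H : ℝ))) - 1 := by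
    fun_prop
  have h0 : Complex.exp (-(Complex.I * (ν (0 : 𝔤) : ℝ) + (ρ (0 : 𝔤) : ℝ))) - 1 = 0 := by simp
  obtain ⟨r, hr, h⟩ := Metric.continuousAt_iff.1 hc.continuousAt δ hδ
  refine ⟨r, hr, fun H hH => ?_⟩
  have := h (x := H) (by rwa [dist_zero_right])
  rw [h0, dist_zero_right] at this
  exact this.le

omit [IsTopologicalGroup G] [T2Space G] in
theorem inner_sigma (R : RepData P U) (m : P.M) (u v : U) :
    inner ℂ (R.σ m u) (R.σ m v) = inner ℂ u v := by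
  let L : U →ₗᵢ[ℂ] U := ⟨R.σ m, fun u => R.norm_σ m u⟩
  exact L.inner_map_map u v

/-- the formula behind the asymptotics -/
theorem near_formula {h f : G → U} (hh : IndFun R h) (hf : IndFun R f) (t : ℝ)
    {Z H X : 𝔤} {m : G} (hm : m ∈ P.M) (hH : H ∈ P.𝔞) (hX : X ∈ P.𝔫) :
    inner ℂ (h (P.exp Z * m * P.exp H * P.exp X))
        (f (P.exp (t • (P.X0 : 𝔤)) * (P.exp Z * m * P.exp H * P.exp X))) =
      Complex.exp (-(Complex.I * (R.ν (t • (P.X0 : 𝔤)) : ℝ) + (t * P.c : ℝ))) *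
      (Complex.exp (-(Complex.I * (R.ν H : ℝ) + (P.ρ H : ℝ))) *
        inner ℂ (h (P.exp Z * m * P.exp H * P.exp X * m⁻¹))
          (f (P.exp (P.Ad (P.exp (t • (P.X0 : 𝔤))) Z)))) := by
  have htX : t • (P.X0 : 𝔤) ∈ P.𝔞 := P.𝔞.smul_mem t P.X0.2
  set a := P.exp (t • (P.X0 : 𝔤)) with ha
  have h1 : P.exp (P.Ad a Z) = a * P.exp Z * a⁻¹ := P.exp_Ad a Z
  have h2 : m * a * m⁻¹ = a := by
    have := P.exp_Ad m (t • (P.X0 : 𝔤))
    rw [hm.2 _ htX] at this
    exact this.symm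
  have h3 : a * m = m * a := by
    calc a * m = (m * a * m⁻¹) * m := by rw [h2]
      _ = m * a := by group
  have h4 : a * (P.exp Z * m * P.exp H * P.exp X) =
      P.exp (P.Ad a Z) * m * P.exp (t • (P.X0 : 𝔤) + H) * P.exp X := by
    rw [P.exp_add_𝔞 htX hH, h1, ← ha]
    calc a * (P.exp Z * m * P.exp H * P.exp X)
        = a * P.exp Z * a⁻¹ * (a * m) * P.exp H * P.exp X := by group
      _ = a * P.exp Z * a⁻¹ * (m * a) * P.exp H * P.exp X := by rw [h3]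
      _ = a * P.exp Z * a⁻¹ * m * (a * P.exp H) * P.exp X := by group
  have h5 : f (a * (P.exp Z * m * P.exp H * P.exp X)) =
      Complex.exp (-(Complex.I * (R.ν (t • (P.X0 : 𝔤) + H) : ℝ) +
        (P.ρ (t • (P.X0 : 𝔤) + H) : ℝ))) •
        R.σ (⟨m, hm⟩ : P.M)⁻¹ (f (P.exp (P.Ad a Z))) := by
    rw [h4, hf.map_N _ X hX, hf.map_A _ _ (P.𝔞.add_mem htX hH)]
    congr 1
    exact hf.map_M _ ⟨m, hm⟩
  have h6 : h (P.exp Z * m * P.exp H * P.exp X) =
      R.σ (⟨m, hm⟩ : P.M)⁻¹ (h (P.exp Z * m * P.exp H * P.exp X * m⁻¹)) := by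
    rw [← hh.map_M _ ⟨m, hm⟩]
    congr 1
    change _ = _ * m⁻¹ * m
    group
  have h7 : P.ρ (t • (P.X0 : 𝔤)) = t * P.c := by rw [map_smul]; rfl
  have h8 : Complex.exp (-(Complex.I * (R.ν (t • (P.X0 : 𝔤) + H) : ℝ) +
        (P.ρ (t • (P.X0 : 𝔤) + H) : ℝ))) =
      Complex.exp (-(Complex.I * (R.ν (t • (P.X0 : 𝔤)) : ℝ) + (t * P.c : ℝ))) *
      Complex.exp (-(Complex.I * (R.ν H : ℝ) + (P.ρ H : ℝ))) := by
    rw [← Complex.exp_add, map_add, map_add, h7]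
    congr 1
    push_cast
    ring
  rw [h5]
  conv_lhs => rw [h6]
  rw [inner_smul_right, inner_sigma, h8, mul_assoc]

/-- bound away from the base point -/
theorem far_bound {f : G → U} (hf : IndFun R f) {B : ℝ} (hB : ∀ k ∈ P.K, ‖f k‖ ≤ B) {k : G}
    (hk : k ∈ P.K) (t : ℝ) :
    P.Dt k ^ 2 * ‖f (P.exp (t • (P.X0 : 𝔤)) * k)‖ ≤ Real.exp (-(t * P.c)) * B := by
  have hB0 : 0 ≤ B := (norm_nonneg _).trans (hB 1 P.K.one_mem)
  set x := P.exp (t • (P.X0 : 𝔤)) * k with hx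
  have h1 := P.exp_mul_abs_Dt_le hk t
  have h2 := P.abs_Dt_le hk
  rw [← hx] at h1
  rw [hf.norm_eq x]
  have h3 := hB (P.κ x) (P.κ_mem x)
  set d := |P.Dt k| with hd
  have hd0 : 0 ≤ d := abs_nonneg _
  have hd2 : P.Dt k ^ 2 = d ^ 2 := (sq_abs _).symm
  rw [hd2]
  set s := P.ρ (P.η x) with hs
  have h4 : d ^ 2 * Real.exp (t * P.c) ≤ Real.exp s := by
    refine le_of_sq_le_sq ?_ (Real.exp_pos _).le
    have e1 : Real.exp (2 * t * P.c) = Real.exp (t * P.c) ^ 2 := by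
      rw [← Real.exp_nat_mul]; congr 1; push_cast; ring
    have e2 : Real.exp (2 * s) = Real.exp s ^ 2 := by
      rw [← Real.exp_nat_mul]; congr 1
    rw [e1, e2] at h1
    have e3 : d ^ 3 ≤ 1 := pow_le_one₀ hd0 h2
    calc (d ^ 2 * Real.exp (t * P.c)) ^ 2
        = d ^ 3 * (Real.exp (t * P.c) ^ 2 * d) := by ring
      _ ≤ 1 * (Real.exp (t * P.c) ^ 2 * d) :=
          mul_le_mul_of_nonneg_right e3 (by positivity)
      _ ≤ Real.exp s ^ 2 := by rw [one_mul]; exact h1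
  have h5 : d ^ 2 * Real.exp (-s) ≤ Real.exp (-(t * P.c)) := by
    rw [Real.exp_neg, Real.exp_neg, ← div_eq_mul_inv, div_le_iff₀ (Real.exp_pos _),
      inv_mul_eq_div, le_div_iff₀ (Real.exp_pos _)]
    exact h4
  calc d ^ 2 * (Real.exp (-s) * ‖f (P.κ x)‖) = (d ^ 2 * Real.exp (-s)) * ‖f (P.κ x)‖ := by ring
    _ ≤ Real.exp (-(t * P.c)) * B :=
        mul_le_mul h5 h3 (norm_nonneg _) (Real.exp_pos _).le

omit [IsTopologicalGroup G] [T2Space G] in
theorem norm_chi (R : RepData P U) (t : ℝ) :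
    ‖Complex.exp (-(Complex.I * (R.ν (t • (P.X0 : 𝔤)) : ℝ) + (t * P.c : ℝ)))‖ =
      Real.exp (-(t * P.c)) := by
  rw [Complex.norm_exp]
  congr 1
  simp

/-- bound near the base point -/
theorem near_bound (h : G → U) (hh : IndFun R h) (hc : Continuous h) {S : ℝ}
    (hS : ∀ k ∈ P.K, ‖h k‖ ≤ S) {ε : ℝ} (hε : 0 < ε) :
    ∃ C : ℝ, ∃ W' ∈ 𝓝 (1 : G), 0 ≤ C ∧ (P.𝔫 = ⊥ → C = 0) ∧
      ∀ f : G → U, IndFun R f → P.Smooth f → ∀ B : ℝ, (∀ k ∈ P.K, ‖f k‖ ≤ B) →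
      ∀ B' : ℝ, 0 ≤ B' →
      (∀ k ∈ P.K, ∀ i, ‖P.lD (stdOrthonormalBasis ℝ P.𝔨 i : 𝔤) f k‖ ≤ B') →
      ∀ t : ℝ, 0 ≤ t → ∀ k ∈ P.K, (∃ m0 ∈ P.M, k * m0 ∈ W') →
      ‖inner ℂ (h k) (f (P.exp (t • (P.X0 : 𝔤)) * k)) -
          Complex.exp (-(Complex.I * (R.ν (t • (P.X0 : 𝔤)) : ℝ) + (t * P.c : ℝ))) *
            inner ℂ (h 1) (f 1)‖ ≤
        Real.exp (-(t * P.c)) * (ε * B + C * Real.exp (-t) * (B + B')) := by
  classical
  obtain ⟨r, Cl, hr, hCl, hlip⟩ := lipschitz_one R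
  have hS0 : 0 ≤ S := (norm_nonneg _).trans (hS 1 P.K.one_mem)
  have hS1 : 0 < S + 1 := by linarith
  set δ := ε / (S + 1) with hδdef
  have hδ : 0 < δ := div_pos hε hS1
  have hδS : δ * (S + 1) = ε := div_mul_cancel₀ ε hS1.ne'
  have hW : {x : G | ‖h x - h 1‖ < δ} ∈ 𝓝 (1 : G) := by
    have h1 : ContinuousAt (fun x : G => ‖h x - h 1‖) 1 := by fun_prop
    have h2 : ‖h 1 - h 1‖ < δ := by rw [sub_self, norm_zero]; exact hδ
    exact h1.eventually_lt_const h2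
  obtain ⟨r1, hr1, hchi⟩ := chi_small R.ν P.ρ hδ
  obtain ⟨W', hW', hnear⟩ := near_M P hW (lt_min hr hr1)
  refine ⟨if P.𝔫 = ⊥ then 0 else (ε + S) * Cl * r, W', hW', ?_, fun hn => if_pos hn, ?_⟩
  · split_ifs
    · exact le_rfl
    · positivity
  intro f hf hfs B hB B' hB' hBD t ht k hk hkm
  have hB0 : 0 ≤ B := (norm_nonneg _).trans (hB 1 P.K.one_mem)
  obtain ⟨m0, hm0, hkm0⟩ := hkm
  obtain ⟨Z, m, H, X, hZ, hm, hH, hX, hkd, hZn, hHn, hkW⟩ := hnear k hk m0 hm0 hkm0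
  have hZr : ‖Z‖ < r := lt_of_lt_of_le hZn (min_le_left _ _)
  have hHr : ‖H‖ < r1 := lt_of_lt_of_le hHn (min_le_right _ _)
  have key := near_formula hh hf t (Z := Z) hm hH hX
  rw [← hkd] at key
  rw [key, ← mul_sub, norm_mul, norm_chi]
  refine mul_le_mul_of_nonneg_left ?_ (Real.exp_pos _).le
  set Zt := P.Ad (P.exp (t • (P.X0 : 𝔤))) Z with hZt
  set e := Complex.exp (-(Complex.I * (R.ν H : ℝ) + (P.ρ H : ℝ))) with he
  set a := h (k * m⁻¹) with ha
  set y := f (P.exp Zt) with hy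
  have hZtn : ‖Zt‖ ≤ Real.exp (-t) * ‖Z‖ := by
    have h1 := P.norm_exp_X0_le P.br_self P.jacobi hZ ht
    have h2 : Zt = NormedSpace.exp (t • LinearMap.toContinuousLinearMap (P.br P.X0)) Z := by
      rw [hZt, P.Ad_exp]
      congr 2
      ext x
      simp
    rw [h2]; exact h1
  have het : Real.exp (-t) ≤ 1 := Real.exp_le_one_iff.2 (by linarith)
  have hZtr : ‖Zt‖ ≤ r := by
    refine hZtn.trans ?_
    calc Real.exp (-t) * ‖Z‖ ≤ 1 * r :=
          mul_le_mul het hZr.le (norm_nonneg _) zero_le_one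
      _ = r := one_mul r
  have he1 : ‖e - 1‖ ≤ δ := hchi H hHr
  have haS : ‖a‖ ≤ S := hS _ (P.K.mul_mem hk (P.K.inv_mem hm.1))
  have ha1 : ‖a - h 1‖ ≤ δ := le_of_lt hkW
  have hh1 : ‖h 1‖ ≤ S := hS 1 P.K.one_mem
  have hf1 : ‖f 1‖ ≤ B := hB 1 P.K.one_mem
  set q := ‖y - f 1‖ with hq
  have hq0 : 0 ≤ q := norm_nonneg _
  have hyB : ‖y‖ ≤ B + q := by
    have : y = f 1 + (y - f 1) := by abel
    calc ‖y‖ = ‖f 1 + (y - f 1)‖ := by rw [← this]
      _ ≤ ‖f 1‖ + ‖y - f 1‖ := norm_add_le _ _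
      _ ≤ B + q := by linarith
  have hqb : (ε + S) * q ≤
      (if P.𝔫 = ⊥ then 0 else (ε + S) * Cl * r) * Real.exp (-t) * (B + B') := by
    split_ifs with hn
    · have hZ0 : Z = 0 := by
        rw [hn, Submodule.mem_bot] at hZ
        rw [← P.θ_θ Z, hZ, map_zero]
      have hy1 : y = f 1 := by
        rw [hy, hZt, hZ0, map_zero, P.exp_zero]
      rw [hq, hy1, sub_self, norm_zero, mul_zero, zero_mul, zero_mul]
    · have h1 : q ≤ Cl * ‖Zt‖ * (B + B') := by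
        refine hlip f hf hfs (B + B') (fun k hk => (hB k hk).trans (by linarith))
          (fun k hk i => (hBD k hk i).trans (by linarith)) Zt hZtr
      have h2 : Cl * ‖Zt‖ * (B + B') ≤ Cl * (Real.exp (-t) * r) * (B + B') := by
        refine mul_le_mul_of_nonneg_right ?_ (by linarith)
        refine mul_le_mul_of_nonneg_left ?_ hCl
        exact hZtn.trans (mul_le_mul_of_nonneg_left hZr.le (Real.exp_pos _).le)
      calc (ε + S) * q ≤ (ε + S) * (Cl * (Real.exp (-t) * r) * (B + B')) :=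
            mul_le_mul_of_nonneg_left (h1.trans h2) (by linarith)
        _ = (ε + S) * Cl * r * Real.exp (-t) * (B + B') := by ring
  have hsplit : e * inner ℂ a y - inner ℂ (h 1) (f 1) =
      (e - 1) * inner ℂ a y + inner ℂ (a - h 1) y + inner ℂ (h 1) (y - f 1) := by
    rw [inner_sub_left, inner_sub_right]
    ring
  rw [hsplit]
  have b1 : ‖(e - 1) * inner ℂ a y‖ ≤ δ * (S * (B + q)) := by
    rw [norm_mul]
    refine mul_le_mul he1 ?_ (norm_nonneg _) hδ.le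
    exact (norm_inner_le_norm a y).trans (mul_le_mul haS hyB (norm_nonneg _) hS0)
  have b2 : ‖inner ℂ (a - h 1) y‖ ≤ δ * (B + q) :=
    (norm_inner_le_norm _ y).trans (mul_le_mul ha1 hyB (norm_nonneg _) hδ.le)
  have b3 : ‖inner ℂ (h 1) (y - f 1)‖ ≤ S * q :=
    (norm_inner_le_norm _ _).trans (mul_le_mul_of_nonneg_right hh1 hq0)
  calc ‖(e - 1) * inner ℂ a y + inner ℂ (a - h 1) y + inner ℂ (h 1) (y - f 1)‖
      ≤ ‖(e - 1) * inner ℂ a y‖ + ‖inner ℂ (a - h 1) y‖ + ‖inner ℂ (h 1) (y - f 1)‖ :=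
        norm_add₃_le
    _ ≤ δ * (S * (B + q)) + δ * (B + q) + S * q := by linarith
    _ = δ * (S + 1) * (B + q) + S * q := by ring
    _ = ε * B + (ε + S) * q := by rw [hδS]; ring
    _ ≤ _ := by linarith

variable [FiniteDimensional ℂ U]
  [MeasurableSpace P.K] [BorelSpace P.K] (μ : Measure P.K) [IsProbabilityMeasure μ]
  [μ.IsMulLeftInvariant] [μ.IsMulRightInvariant] [μ.IsOpenPosMeasure]

/-- BASE-1 -/
theorem asymptotics (ξ₁ : V R) {ε : ℝ} (hε : 0 < ε) :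
    ∃ (ξ : V R) (C : ℝ), 0 ≤ C ∧ ∀ (f : V R) (B : ℝ),
      (∀ k ∈ P.K, ‖(f : G → U) k‖ ≤ B) →
      ∀ B' : ℝ, (∀ k ∈ P.K, ∀ i, ‖P.lD (stdOrthonormalBasis ℝ P.𝔨 i : 𝔤) (f : G → U) k‖ ≤ B') →
      ∀ t : ℝ, 0 ≤ t →
      ‖pair μ (ξ : G → U) (lt (P.exp (t • (P.X0 : 𝔤)))⁻¹ (f : G → U)) -
          Complex.exp (-(Complex.I * (R.ν (t • (P.X0 : 𝔤)) : ℝ) + (t * P.c : ℝ))) *
            inner ℂ ((ξ₁ : G → U) 1) ((f : G → U) 1)‖ ≤
        Real.exp (-(t * P.c)) * (ε * B + C * Real.exp (-t) * (B + B')) := by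
  classical
  obtain ⟨h, hmem⟩ := ξ₁
  have hc : Continuous h := hmem.1
  have hh : IndFun R h := hmem.2.1
  obtain ⟨S, hS⟩ := P.isCompact_K.exists_bound_of_continuousOn hc.continuousOn
  have hS0 : 0 ≤ S := (norm_nonneg _).trans (hS 1 P.K.one_mem)
  obtain ⟨C, W', hW', hC, hC0, hnear⟩ := near_bound h hh hc hS (half_pos hε)
  set O : Set P.K := {k | ∃ m0 ∈ P.M, (k : G) * m0 ∈ interior W'} with hO
  have hOo : IsOpen O := by
    have : O = ⋃ m0 ∈ P.M, (fun k : P.K => (k : G) * m0) ⁻¹' interior W' := by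
      ext k
      simp [hO]
    rw [this]
    refine isOpen_biUnion fun m0 _ => isOpen_interior.preimage ?_
    fun_prop
  have hFc : Continuous fun k : P.K => P.Fl (k : G) := P.continuous_Fl.comp continuous_subtype_val
  have hDc : Continuous fun k : P.K => P.Dt (k : G) ^ 2 :=
    (P.continuous_Dt.comp continuous_subtype_val).pow 2
  have hε2 : 0 < ε / (4 * (S + 1)) := by positivity
  obtain ⟨J, hJ⟩ := concentration μ hFc hDc (fun k => P.Fl_nonneg k) (fun k => P.Fl_le_one k)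
    (fun k => sq_nonneg _) (x0 := (1 : P.K))
    ((P.Fl_eq_one P.K.one_mem).2 P.M.one_mem)
    (by change 0 < P.Dt 1 ^ 2; rw [P.Dt_one]; norm_num) hOo
    (fun k hk => by
      have hkM : (k : G) ∈ P.M := (P.Fl_eq_one k.2).1 hk
      refine ⟨(k : G)⁻¹, P.M.inv_mem hkM, ?_⟩
      rw [mul_inv_cancel]
      exact mem_interior_iff_mem_nhds.2 hW') hε2
  obtain ⟨hZ, hconc⟩ := hJ J le_rfl
  set b : P.K → ℝ := fun k => P.Fl (k : G) ^ J * P.Dt (k : G) ^ 2 with hb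
  set Zc := ∫ k, b k ∂μ with hZc
  have hbc : Continuous b := (hFc.pow J).mul hDc
  have hbi : Integrable b μ :=
    hbc.integrable_of_hasCompactSupport (HasCompactSupport.of_compactSpace _)
  have hFi : Integrable (fun k : P.K => P.Fl (k : G) ^ J) μ :=
    (hFc.pow J).integrable_of_hasCompactSupport (HasCompactSupport.of_compactSpace _)
  have hb0 : ∀ k, 0 ≤ b k := fun k => mul_nonneg (pow_nonneg (P.Fl_nonneg _) J) (sq_nonneg _)
  refine ⟨⟨_, P.cutoff_mem_V hmem J ((Zc⁻¹ : ℝ) : ℂ)⟩, C, hC, ?_⟩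
  rintro ⟨f, hfm⟩ B hB B' hBD t ht
  have hf : IndFun R f := hfm.2.1
  have hfs : P.Smooth f := smooth_of_mem_V hfm
  have hfc : Continuous f := hfm.1
  have hB0 : 0 ≤ B := (norm_nonneg _).trans (hB 1 P.K.one_mem)
  change ∀ k ∈ P.K, ‖f k‖ ≤ B at hB
  change ∀ k ∈ P.K, ∀ i, ‖P.lD (stdOrthonormalBasis ℝ P.𝔨 i : 𝔤) f k‖ ≤ B' at hBD
  set Et := Complex.exp (-(Complex.I * (R.ν (t • (P.X0 : 𝔤)) : ℝ) + (t * P.c : ℝ))) with hEt
  set at' := P.exp (t • (P.X0 : 𝔤)) with hat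
  set N := Real.exp (-(t * P.c)) * (ε / 2 * B + C * Real.exp (-t) * (B + B')) with hN
  have hnear' : ∀ k ∈ P.K, (∃ m0 ∈ P.M, k * m0 ∈ W') →
      ‖inner ℂ (h k) (f (at' * k)) - Et * inner ℂ (h 1) (f 1)‖ ≤ N := by
    intro k hk hkm
    rcases Nat.eq_zero_or_pos (Module.finrank ℝ P.𝔨) with h0 | h0
    · have hn := n_eq_bot P h0
      have hCz := hC0 hn
      have h1 := hnear f hf hfs B hB 0 le_rfl
        (fun k hk i => by have := i.2; exfalso; omega) t ht k hk hkm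
      rw [hCz, zero_mul, zero_mul] at h1
      rw [hN, hCz, zero_mul, zero_mul]
      exact h1
    · have hB' : 0 ≤ B' := (norm_nonneg _).trans (hBD 1 P.K.one_mem ⟨0, h0⟩)
      exact hnear f hf hfs B hB B' hB' hBD t ht k hk hkm
  have hN0 : 0 ≤ N := (norm_nonneg _).trans (hnear' 1 P.K.one_mem
    ⟨1, P.M.one_mem, by rw [mul_one]; exact mem_of_mem_nhds hW'⟩)
  have hEn : ‖Et‖ = Real.exp (-(t * P.c)) := norm_chi R t
  -- the integrand
  set g : P.K → ℂ := fun k => inner ℂ (h k) (f (at' * k)) - Et * inner ℂ (h 1) (f 1) with hg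
  have hgb : ∀ k : P.K, ‖((Zc⁻¹ * b k : ℝ) : ℂ) * g k‖ ≤
      Zc⁻¹ * (b k * N + Oᶜ.indicator (fun k : P.K => P.Fl (k : G) ^ J) k *
        (2 * S * B * Real.exp (-(t * P.c)))) := by
    intro k
    rw [norm_mul, Complex.norm_real, Real.norm_of_nonneg
      (mul_nonneg (inv_nonneg.2 hZ.le) (hb0 k)), mul_assoc]
    refine mul_le_mul_of_nonneg_left ?_ (inv_nonneg.2 hZ.le)
    by_cases hkO : k ∈ O
    · obtain ⟨m0, hm0, hkm⟩ := hkO
      have h1 := hnear' k k.2 ⟨m0, hm0, interior_subset hkm⟩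
      have h2 : k ∉ Oᶜ := fun hc => hc ⟨m0, hm0, hkm⟩
      rw [indicator_of_notMem h2, zero_mul, add_zero]
      exact mul_le_mul_of_nonneg_left h1 (hb0 k)
    · rw [indicator_of_mem (show k ∈ Oᶜ from hkO)]
      have h1 : ‖g k‖ ≤ S * ‖f (at' * k)‖ + Real.exp (-(t * P.c)) * (S * B) := by
        refine (norm_sub_le _ _).trans (add_le_add ?_ ?_)
        · exact (norm_inner_le_norm _ _).trans
            (mul_le_mul_of_nonneg_right (hS k k.2) (norm_nonneg _))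
        · rw [norm_mul, hEn]
          refine mul_le_mul_of_nonneg_left ?_ (Real.exp_pos _).le
          exact (norm_inner_le_norm _ _).trans
            (mul_le_mul (hS 1 P.K.one_mem) (hB 1 P.K.one_mem) (norm_nonneg _) hS0)
      have h2 : P.Dt (k : G) ^ 2 * ‖f (at' * k)‖ ≤ Real.exp (-(t * P.c)) * B :=
        far_bound hf hB k.2 t
      have h3 : P.Dt (k : G) ^ 2 ≤ 1 := by
        rw [← sq_abs]
        exact pow_le_one₀ (abs_nonneg _) (P.abs_Dt_le k.2)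
      have hF0 : 0 ≤ P.Fl (k : G) ^ J := pow_nonneg (P.Fl_nonneg _) J
      have h4 : P.Dt (k : G) ^ 2 * ‖g k‖ ≤ 2 * S * B * Real.exp (-(t * P.c)) := by
        calc P.Dt (k : G) ^ 2 * ‖g k‖
            ≤ P.Dt (k : G) ^ 2 * (S * ‖f (at' * k)‖ + Real.exp (-(t * P.c)) * (S * B)) :=
              mul_le_mul_of_nonneg_left h1 (sq_nonneg _)
          _ = S * (P.Dt (k : G) ^ 2 * ‖f (at' * k)‖) +
              P.Dt (k : G) ^ 2 * (Real.exp (-(t * P.c)) * (S * B)) := by ring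
          _ ≤ S * (Real.exp (-(t * P.c)) * B) + 1 * (Real.exp (-(t * P.c)) * (S * B)) := by
              refine add_le_add (mul_le_mul_of_nonneg_left h2 hS0)
                (mul_le_mul_of_nonneg_right h3 ?_)
              have := (Real.exp_pos (-(t * P.c))).le
              positivity
          _ = _ := by ring
      have h5 : b k * ‖g k‖ ≤ P.Fl (k : G) ^ J * (2 * S * B * Real.exp (-(t * P.c))) := by
        rw [hb]
        change P.Fl (k : G) ^ J * P.Dt (k : G) ^ 2 * ‖g k‖ ≤ _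
        rw [mul_assoc]
        exact mul_le_mul_of_nonneg_left h4 hF0
      have h6 : 0 ≤ b k * N := mul_nonneg (hb0 k) hN0
      linarith
  have hpair : pair μ (fun x => (((Zc⁻¹ : ℝ) : ℂ) *
      ((P.Fl x ^ J * P.Dt (P.κ x) ^ 2 : ℝ) : ℂ)) • h x) (lt at'⁻¹ f) -
        Et * inner ℂ (h 1) (f 1) = ∫ k, ((Zc⁻¹ * b k : ℝ) : ℂ) * g k ∂μ := by
    have e1 : pair μ (fun x => (((Zc⁻¹ : ℝ) : ℂ) *
        ((P.Fl x ^ J * P.Dt (P.κ x) ^ 2 : ℝ) : ℂ)) • h x) (lt at'⁻¹ f) =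
        ∫ k : P.K, ((Zc⁻¹ * b k : ℝ) : ℂ) * inner ℂ (h k) (f (at' * k)) ∂μ := by
      unfold pair
      refine integral_congr_ae (Eventually.of_forall fun k => ?_)
      change inner ℂ ((((Zc⁻¹ : ℝ) : ℂ) *
        ((P.Fl k ^ J * P.Dt (P.κ k) ^ 2 : ℝ) : ℂ)) • h k) (f (at'⁻¹⁻¹ * k)) = _
      rw [P.κ_of_mem k.2, inv_inv, inner_smul_left, ← Complex.ofReal_mul, Complex.conj_ofReal]
    have e2 : Et * inner ℂ (h 1) (f 1) =
        ∫ k : P.K, ((Zc⁻¹ * b k : ℝ) : ℂ) * (Et * inner ℂ (h 1) (f 1)) ∂μ := by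
      rw [integral_mul_const, integral_complex_ofReal, integral_const_mul, ← hZc,
        inv_mul_cancel₀ hZ.ne', Complex.ofReal_one, one_mul]
    have i1 : Integrable (fun k : P.K => ((Zc⁻¹ * b k : ℝ) : ℂ) *
        inner ℂ (h k) (f (at' * k))) μ := by
      refine Continuous.integrable_of_hasCompactSupport ?_ (HasCompactSupport.of_compactSpace _)
      have c1 : Continuous fun k : P.K => h k := hc.comp continuous_subtype_val
      have c2 : Continuous fun k : P.K => f (at' * k) :=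
        hfc.comp (continuous_const.mul continuous_subtype_val)
      exact (Complex.continuous_ofReal.comp (continuous_const.mul hbc)).mul (c1.inner c2)
    have i2 : Integrable (fun k : P.K => ((Zc⁻¹ * b k : ℝ) : ℂ) *
        (Et * inner ℂ (h 1) (f 1))) μ := by
      refine Continuous.integrable_of_hasCompactSupport ?_ (HasCompactSupport.of_compactSpace _)
      exact (Complex.continuous_ofReal.comp (continuous_const.mul hbc)).mul continuous_const
    rw [e1]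
    conv_lhs => rw [e2]
    rw [← integral_sub i1 i2]
    refine integral_congr_ae (Eventually.of_forall fun k => ?_)
    change _ = ((Zc⁻¹ * b k : ℝ) : ℂ) *
      (inner ℂ (h k) (f (at' * k)) - Et * inner ℂ (h 1) (f 1))
    rw [mul_sub]
  change ‖pair μ (fun x => (((Zc⁻¹ : ℝ) : ℂ) *
      ((P.Fl x ^ J * P.Dt (P.κ x) ^ 2 : ℝ) : ℂ)) • h x) (lt at'⁻¹ f) -
        Et * inner ℂ (h 1) (f 1)‖ ≤ _
  rw [hpair]
  have hindi : Integrable (Oᶜ.indicator fun k : P.K => P.Fl (k : G) ^ J) μ :=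
    hFi.indicator hOo.measurableSet.compl
  have hGi : Integrable (fun k => Zc⁻¹ * (b k * N +
      Oᶜ.indicator (fun k : P.K => P.Fl (k : G) ^ J) k *
        (2 * S * B * Real.exp (-(t * P.c))))) μ :=
    ((hbi.mul_const N).add (hindi.mul_const _)).const_mul _
  refine (norm_integral_le_of_norm_le hGi (Eventually.of_forall hgb)).trans ?_
  rw [integral_const_mul, integral_add (hbi.mul_const N) (hindi.mul_const _),
    integral_mul_const, integral_mul_const, integral_indicator hOo.measurableSet.compl, ← hZc,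
    mul_add]
  have f1 : Zc⁻¹ * (Zc * N) = N := by rw [← mul_assoc, inv_mul_cancel₀ hZ.ne', one_mul]
  have f2 : 0 ≤ 2 * S * B * Real.exp (-(t * P.c)) := by
    have := (Real.exp_pos (-(t * P.c))).le
    positivity
  have f3 : Zc⁻¹ * ((∫ k in Oᶜ, P.Fl (k : G) ^ J ∂μ) * (2 * S * B * Real.exp (-(t * P.c)))) ≤
      Real.exp (-(t * P.c)) * (ε / 2 * B) := by
    calc Zc⁻¹ * ((∫ k in Oᶜ, P.Fl (k : G) ^ J ∂μ) * (2 * S * B * Real.exp (-(t * P.c))))
        ≤ Zc⁻¹ * ((ε / (4 * (S + 1)) * Zc) * (2 * S * B * Real.exp (-(t * P.c)))) := by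
          refine mul_le_mul_of_nonneg_left ?_ (inv_nonneg.2 hZ.le)
          exact mul_le_mul_of_nonneg_right hconc f2
      _ = (ε / (4 * (S + 1)) * (2 * S)) * (B * Real.exp (-(t * P.c))) * (Zc⁻¹ * Zc) := by ring
      _ = (ε / (4 * (S + 1)) * (2 * S)) * (B * Real.exp (-(t * P.c))) := by
          rw [inv_mul_cancel₀ hZ.ne', mul_one]
      _ ≤ (ε / 2) * (B * Real.exp (-(t * P.c))) := by
          refine mul_le_mul_of_nonneg_right ?_ (mul_nonneg hB0 (Real.exp_pos _).le)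
          rw [div_mul_eq_mul_div, div_le_div_iff₀ (by positivity) (by norm_num)]
          nlinarith
      _ = _ := by ring
  rw [f1]
  calc N + Zc⁻¹ * ((∫ k in Oᶜ, P.Fl (k : G) ^ J ∂μ) * (2 * S * B * Real.exp (-(t * P.c))))
      ≤ N + Real.exp (-(t * P.c)) * (ε / 2 * B) := by linarith
    _ = Real.exp (-(t * P.c)) * (ε * B + C * Real.exp (-t) * (B + B')) := by rw [hN]; ring

end Pool.Agent.Helper67.SG
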